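import Pool.Agent.W668.Uni.Stmts

/-!
# UNI-LIN: unique solvability of the linearised equation in `Ep`
-/

set_option autoImplicit false

open Set MeasureTheory Filter
open scoped ContDiff Topology

namespace Pool.Agent.W131.Uni

open Pool.Agent.W668.Uni

noncomputable section

/-- `v = D u` in the derivative form -/
def DD (u v : X) : Prop := ∀ x : ℝ, 0 < x → x < 1 → HasDerivAt (evX u) (evX v x / x) x

/-- `v = D u` in the integrated form -/
def DI (u v : X) : Prop := ∀ a : ℝ, 0 ≤ a → ∀ x : ℝ, 0 ≤ x → x ≤ 1 →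
    evX u x - evX u (Real.exp (-a) * x) = ∫ s in (0 : ℝ)..a, evX v (Real.exp (-s) * x)

theorem evX_add (u v : X) (x : ℝ) : evX (u + v) x = evX u x + evX v x := rfl
theorem evX_sub (u v : X) (x : ℝ) : evX (u - v) x = evX u x - evX v x := rfl
theorem evX_mul (u v : X) (x : ℝ) : evX (u * v) x = evX u x * evX v x := rfl
theorem evX_smul (r : ℝ) (v : X) (x : ℝ) : evX (r • v) x = r * evX v x := rfl
theorem evX_zero (x : ℝ) : evX (0 : X) x = 0 := rfl

theorem evX_coe (u : X) (x : I1) : evX u x = u x := by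
  unfold evX
  rw [Set.projIcc_val]

theorem X_ext_of_Ioo {u v : X} (h : ∀ x : ℝ, 0 < x → x < 1 → evX u x = evX v x) : u = v := by
  have hcl : IsClosed {x : ℝ | evX u x = evX v x} :=
    isClosed_eq (continuous_evX u) (continuous_evX v)
  have hsub : Ioo (0 : ℝ) 1 ⊆ {x : ℝ | evX u x = evX v x} := fun x hx => h x hx.1 hx.2
  have h2 : Icc (0 : ℝ) 1 ⊆ {x : ℝ | evX u x = evX v x} := by
    rw [← closure_Ioo (zero_ne_one (α := ℝ))]
    exact hcl.closure_subset_iff.2 hsub
  ext x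
  have := h2 x.2
  have h3 : evX u (x : ℝ) = evX v (x : ℝ) := this
  rw [evX_coe, evX_coe] at h3
  exact h3

theorem DD_of_DI {u v : X} (h : DI u v) : DD u v := by
  intro x hx0 hx1
  have key : ∀ y : ℝ, 0 < y → y < 1 →
      evX u y = evX u 1 - ∫ s in (0:ℝ)..(-Real.log y), evX v (Real.exp (-s) * 1) := by
    intro y hy0 hy1
    have ha : 0 ≤ -Real.log y := by
      have := Real.log_nonpos hy0.le hy1.le
      linarith
    have := h (-Real.log y) ha 1 zero_le_one le_rfl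
    rw [← this]
    rw [neg_neg, Real.exp_log hy0, mul_one]
    ring
  have hc : Continuous (fun s : ℝ => evX v (Real.exp (-s) * 1)) :=
    (continuous_evX v).comp (by fun_prop)
  have h1 : HasDerivAt (fun b : ℝ => ∫ s in (0:ℝ)..b, evX v (Real.exp (-s) * 1))
      (evX v (Real.exp (-(-Real.log x)) * 1)) (-Real.log x) :=
    intervalIntegral.integral_hasDerivAt_right (hc.intervalIntegrable _ _)
      (hc.stronglyMeasurableAtFilter _ _) hc.continuousAt
  have h2 : HasDerivAt (fun y : ℝ => -Real.log y) (-(x⁻¹)) x :=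
    (Real.hasDerivAt_log hx0.ne').neg
  have h3 := (h1.comp x h2).const_sub (evX u 1)
  have h4 : HasDerivAt (evX u) (-(evX v (Real.exp (-(-Real.log x)) * 1) * (-(x⁻¹)))) x := by
    refine h3.congr_of_eventuallyEq ?_
    filter_upwards [Ioo_mem_nhds hx0 hx1] with y hy
    exact key y hy.1 hy.2
  convert h4 using 1
  rw [neg_neg, Real.exp_log hx0, mul_one]
  field_simp

theorem DI_of_DD {u v : X} (h : DD u v) : DI u v := by
  intro a ha
  have hcv : ∀ x : ℝ, Continuous (fun s : ℝ => evX v (Real.exp (-s) * x)) := fun x =>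
    (continuous_evX v).comp (by fun_prop)
  have h1 : ∀ x : ℝ, x ∈ Ioo (0:ℝ) 1 → evX u x - evX u (Real.exp (-a) * x)
      = ∫ s in (0 : ℝ)..a, evX v (Real.exp (-s) * x) := by
    intro x hx
    have hd : ∀ s ∈ uIcc (0:ℝ) a, HasDerivAt (fun s => -evX u (Real.exp (-s) * x))
        (evX v (Real.exp (-s) * x)) s := by
      intro s hs
      rw [uIcc_of_le ha] at hs
      have e0 : 0 < Real.exp (-s) * x := mul_pos (Real.exp_pos _) hx.1
      have e1 : Real.exp (-s) * x < 1 := by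
        have : Real.exp (-s) ≤ 1 := Real.exp_le_one_iff.2 (by linarith [hs.1])
        nlinarith [hx.1, hx.2, Real.exp_pos (-s)]
      have d1 : HasDerivAt (fun s : ℝ => Real.exp (-s) * x) (-(Real.exp (-s)) * x) s := by
        have := ((hasDerivAt_neg s).exp).mul_const x
        exact this.congr_deriv (by ring)
      have d2 := ((h _ e0 e1).comp s d1).neg
      have hx' : x ≠ 0 := hx.1.ne'
      refine d2.congr_deriv ?_
      have : Real.exp (-s) ≠ 0 := (Real.exp_pos _).ne'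
      field_simp
    have := intervalIntegral.integral_eq_sub_of_hasDerivAt hd
      ((hcv x).intervalIntegrable _ _)
    rw [this]
    simp
    ring
  have hcl : IsClosed {x : ℝ | evX u x - evX u (Real.exp (-a) * x)
      = ∫ s in (0 : ℝ)..a, evX v (Real.exp (-s) * x)} := by
    refine isClosed_eq ?_ ?_
    · exact (continuous_evX u).sub ((continuous_evX u).comp (by fun_prop))
    · refine intervalIntegral.continuous_parametric_intervalIntegral_of_continuous' ?_ 0 a
      exact (continuous_evX v).comp (by fun_prop)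
  have h2 : Icc (0 : ℝ) 1 ⊆ {x : ℝ | evX u x - evX u (Real.exp (-a) * x)
      = ∫ s in (0 : ℝ)..a, evX v (Real.exp (-s) * x)} := by
    rw [← closure_Ioo (zero_ne_one (α := ℝ))]
    exact hcl.closure_subset_iff.2 h1
  intro x hx0 hx1
  exact h2 ⟨hx0, hx1⟩

theorem DD.add {u v u' v' : X} (h : DD u v) (h' : DD u' v') : DD (u + u') (v + v') := by
  intro x hx0 hx1
  have := (h x hx0 hx1).add (h' x hx0 hx1)
  rw [evX_add, add_div]
  exact this

theorem DD.smul {u v : X} (r : ℝ) (h : DD u v) : DD (r • u) (r • v) := by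
  intro x hx0 hx1
  have := (h x hx0 hx1).const_mul r
  rw [evX_smul, mul_div_assoc]
  exact this

theorem DD.sub {u v u' v' : X} (h : DD u v) (h' : DD u' v') : DD (u - u') (v - v') := by
  intro x hx0 hx1
  have := (h x hx0 hx1).sub (h' x hx0 hx1)
  rw [evX_sub, sub_div]
  exact this

theorem DD.mul {u v u' v' : X} (h : DD u v) (h' : DD u' v') :
    DD (u * u') (v * u' + u * v') := by
  intro x hx0 hx1
  have := (h x hx0 hx1).mul (h' x hx0 hx1)
  refine this.congr_deriv ?_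
  rw [evX_add, evX_mul, evX_mul]
  ring

/-- uniqueness of the bounded solution of `D v = - n v` -/
theorem DD_unique {v w' : X} {n : ℕ} (hn : n ≠ 0) (h : DD v w')
    (hw : ∀ x : ℝ, 0 < x → x < 1 → evX w' x = -(n * evX v x)) : v = 0 := by
  have hder : ∀ x ∈ Ioo (0:ℝ) 1, HasDerivAt (fun x => x ^ n * evX v x) 0 x := by
    intro x hx
    have := (hasDerivAt_pow n x).mul (h x hx.1 hx.2)
    refine this.congr_deriv ?_
    rw [hw x hx.1 hx.2]
    obtain ⟨m, rfl⟩ := Nat.exists_eq_succ_of_ne_zero hn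
    have hx' : x ≠ 0 := hx.1.ne'
    simp only [Nat.succ_eq_add_one, Nat.add_sub_cancel]
    field_simp
    ring
  refine X_ext_of_Ioo fun x hx0 hx1 => ?_
  rw [evX_zero]
  have hcont : Continuous (fun x : ℝ => x ^ n * evX v x) :=
    (continuous_pow n).mul (continuous_evX v)
  have : ∫ s in (0:ℝ)..x, (0:ℝ) = (x ^ n * evX v x) - ((0:ℝ) ^ n * evX v 0) := by
    refine intervalIntegral.integral_eq_sub_of_hasDerivAt_of_le hx0.le
      hcont.continuousOn (fun y hy => hder y ⟨hy.1, hy.2.trans hx1⟩) ?_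
    simp
  simp only [intervalIntegral.integral_zero, zero_pow hn, zero_mul, sub_zero] at this
  have h3 : x ^ n ≠ 0 := pow_ne_zero _ hx0.ne'
  rcases mul_eq_zero.1 this.symm with h4 | h4
  · exact absurd h4 h3
  · exact h4

theorem Bn_eq (h : X) (n : ℕ) (x : ℝ) :
    x ^ (n + 1) * ∫ u in (0:ℝ)..1, u ^ n * evX h (x * u)
      = ∫ s in (0:ℝ)..x, s ^ n * evX h s := by
  have h1 := intervalIntegral.mul_integral_comp_mul_left (a := 0) (b := 1)
    (f := fun s => s ^ n * evX h s) x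
  simp only [mul_zero, mul_one] at h1
  rw [← h1, pow_succ, mul_comm (x ^ n) x, mul_assoc, ← intervalIntegral.integral_const_mul]
  congr 1
  refine intervalIntegral.integral_congr fun u _ => ?_
  show x ^ n * (u ^ n * evX h (x * u)) = (x * u) ^ n * evX h (x * u)
  ring

theorem Bn_der (h : X) (n : ℕ) (x : ℝ) (hx : 0 < x) :
    HasDerivAt (fun x : ℝ => ∫ u in (0:ℝ)..1, u ^ n * evX h (x * u))
      ((evX h x - (n + 1) * ∫ u in (0:ℝ)..1, u ^ n * evX h (x * u)) / x) x := by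
  have hc : Continuous (fun s : ℝ => s ^ n * evX h s) :=
    (continuous_pow n).mul (continuous_evX h)
  have h1 : HasDerivAt (fun b : ℝ => ∫ s in (0:ℝ)..b, s ^ n * evX h s)
      (x ^ n * evX h x) x :=
    intervalIntegral.integral_hasDerivAt_right (hc.intervalIntegrable _ _)
      (hc.stronglyMeasurableAtFilter _ _) hc.continuousAt
  have h2 := h1.div (hasDerivAt_pow (n + 1) x) (pow_ne_zero _ hx.ne')
  have h3 := h2.congr_of_eventuallyEq
      (f₁ := fun x : ℝ => ∫ u in (0:ℝ)..1, u ^ n * evX h (x * u)) (by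
    filter_upwards [Ioi_mem_nhds hx] with y hy
    have hy' : (y:ℝ) ≠ 0 := (ne_of_gt hy)
    simp only [Pi.div_apply]
    rw [← Bn_eq h n y, mul_div_cancel_left₀ _ (pow_ne_zero _ hy')])
  refine h3.congr_deriv ?_
  rw [← Bn_eq h n x]
  have hx' : x ≠ 0 := hx.ne'
  simp only [Nat.add_sub_cancel]
  push_cast
  field_simp
  ring

theorem Ob_DD (O : Ops) (g : X) : DD (O.b g) (g - (2:ℝ) • O.b g) := by
  intro x hx0 hx1
  have h1 := Bn_der g 1 x hx0
  have h2 := h1.congr_of_eventuallyEq (f₁ := evX (O.b g)) (by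
    filter_upwards [Ioo_mem_nhds hx0 hx1] with y hy
    rw [O.b_ev g y hy.1.le hy.2.le]
    simp)
  refine h2.congr_deriv ?_
  rw [evX_sub, evX_smul, O.b_ev g x hx0.le hx1.le]
  simp only [pow_one]
  norm_num

/-- `O.b g` is the unique bounded solution of `D u + 2 u = g` -/
theorem Ob_unique (O : Ops) (g u v : X) (h : DD u v)
    (hv : ∀ x : ℝ, 0 < x → x < 1 → evX v x = evX g x - 2 * evX u x) : O.b g = u := by
  have h1 := (Ob_DD O g).sub h
  have h2 := DD_unique (n := 2) (by norm_num) h1 (by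
    intro x hx0 hx1
    rw [evX_sub, evX_sub, evX_sub, evX_smul, hv x hx0 hx1]
    push_cast
    ring)
  exact sub_eq_zero.1 h2

theorem evX_mkX {u : ℝ → ℝ} (hu : Continuous u) {x : ℝ} (h0 : 0 ≤ x) (h1 : x ≤ 1) :
    evX (mkX u) x = u x := by
  have hc : Continuous (fun x : I1 => u x) := hu.comp continuous_subtype_val
  unfold evX mkX
  rw [dif_pos hc, Set.projIcc_of_mem zero_le_one ⟨h0, h1⟩]
  rfl

theorem mkX_DD {u : ℝ → ℝ} (hu : ContDiff ℝ ∞ u) : DD (mkX u) (mkX (fun x => x * deriv u x)) := by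
  have hd : ContDiff ℝ ∞ (deriv u) := (contDiff_infty_iff_deriv.1 hu).2
  have hc : Continuous (fun x => x * deriv u x) := continuous_id.mul hd.continuous
  intro x hx0 hx1
  rw [evX_mkX hc hx0.le hx1.le, mul_div_cancel_left₀ _ hx0.ne']
  have h1 : HasDerivAt u (deriv u x) x :=
    ((contDiff_infty_iff_deriv.1 hu).1 x).hasDerivAt
  refine h1.congr_of_eventuallyEq ?_
  filter_upwards [Ioo_mem_nhds hx0 hx1] with y hy
  exact evX_mkX hu.continuous hy.1.le hy.2.le

/-- building an element of `E 3` -/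
theorem mkE3 {u0 u1 u2 u3 : X} (h0 : DD u0 u1) (h1 : DD u1 u2) (h2 : DD u2 u3) :
    (![u0, u1, u2, u3] : Fin 4 → X) ∈ E 3 := by
  intro i
  fin_cases i
  · exact DI_of_DD h0
  · exact DI_of_DD h1
  · exact DI_of_DD h2

theorem E3_DD (u : E 3) : DD ((u : Fin 4 → X) 0) ((u : Fin 4 → X) 1) ∧
    DD ((u : Fin 4 → X) 1) ((u : Fin 4 → X) 2) ∧ DD ((u : Fin 4 → X) 2) ((u : Fin 4 → X) 3) :=
  ⟨DD_of_DI (u.2 0), DD_of_DI (u.2 1), DD_of_DI (u.2 2)⟩

theorem DD_right_unique {u v v' : X} (h : DD u v) (h' : DD u v') : v = v' := by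
  refine X_ext_of_Ioo fun x hx0 hx1 => ?_
  have := (h x hx0 hx1).unique (h' x hx0 hx1)
  have hx' : x ≠ 0 := hx0.ne'
  field_simp at this
  exact this

theorem E3_ext {u v : E 3} (h : z0 u = z0 v) : u = v := by
  obtain ⟨a1, a2, a3⟩ := E3_DD u
  obtain ⟨b1, b2, b3⟩ := E3_DD v
  have e0 : (u : Fin 4 → X) 0 = (v : Fin 4 → X) 0 := h
  rw [e0] at a1
  have e1 := DD_right_unique a1 b1
  rw [e1] at a2
  have e2 := DD_right_unique a2 b2
  rw [e2] at a3
  have e3 := DD_right_unique a3 b3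
  apply Subtype.ext
  funext i
  fin_cases i
  · exact e0
  · exact e1
  · exact e2
  · exact e3

/-- smooth functions give elements of `E 3` -/
theorem exists_E3 {m : ℝ → ℝ} (hm : ContDiff ℝ ∞ m) : ∃ a : E 3, z0 a = mkX m := by
  have step : ∀ u : ℝ → ℝ, ContDiff ℝ ∞ u → ContDiff ℝ ∞ (fun x => x * deriv u x) := by
    intro u hu
    exact contDiff_id.mul (contDiff_infty_iff_deriv.1 hu).2
  have h1 := step m hm
  have h2 := step _ h1
  exact ⟨⟨_, mkE3 (mkX_DD hm) (mkX_DD h1) (mkX_DD h2)⟩, rfl⟩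

/-- products -/
theorem exists_mul (p : Ep) (a : E 3) : ∃ q : Ep, z0 (q : E 3) = z0 (p : E 3) * z0 a := by
  obtain ⟨p1, p2, p3⟩ := E3_DD (p : E 3)
  obtain ⟨a1, a2, a3⟩ := E3_DD a
  set P : Fin 4 → X := ((p : E 3) : Fin 4 → X) with hP
  set A : Fin 4 → X := (a : Fin 4 → X) with hA
  have d1 : DD (P 0 * A 0) (P 1 * A 0 + P 0 * A 1) := p1.mul a1
  have d2 : DD (P 1 * A 0 + P 0 * A 1) ((P 2 * A 0 + P 1 * A 1) + (P 1 * A 1 + P 0 * A 2)) :=
    (p2.mul a1).add (p1.mul a2)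
  have d3 : DD ((P 2 * A 0 + P 1 * A 1) + (P 1 * A 1 + P 0 * A 2))
      (((P 3 * A 0 + P 2 * A 1) + (P 2 * A 1 + P 1 * A 2)) +
        ((P 2 * A 1 + P 1 * A 2) + (P 1 * A 2 + P 0 * A 3))) :=
    ((p3.mul a1).add (p2.mul a2)).add ((p2.mul a2).add (p1.mul a3))
  have hz : ∀ i : Fin 4, ∀ x : ℝ, 0 ≤ x → x ≤ 1 / 4 → evX (P i) x = 0 := p.2
  refine ⟨⟨⟨_, mkE3 d1 d2 d3⟩, ?_⟩, rfl⟩
  intro i x hx0 hx1
  have z := fun i => hz i x hx0 hx1
  fin_cases i
  · show evX (P 0 * A 0) x = 0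
    simp only [evX_mul, z, zero_mul]
  · show evX (P 1 * A 0 + P 0 * A 1) x = 0
    simp only [evX_mul, evX_add, z, zero_mul, add_zero]
  · show evX ((P 2 * A 0 + P 1 * A 1) + (P 1 * A 1 + P 0 * A 2)) x = 0
    simp only [evX_mul, evX_add, z, zero_mul, add_zero]
  · show evX (((P 3 * A 0 + P 2 * A 1) + (P 2 * A 1 + P 1 * A 2)) +
        ((P 2 * A 1 + P 1 * A 2) + (P 1 * A 2 + P 0 * A 3))) x = 0
    simp only [evX_mul, evX_add, z, zero_mul, add_zero]

/-- the solution of `D q + 4 q = r` -/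
theorem exists_q (r : Ep) : ∃ q : Ep, DD (z0 (q : E 3)) (z0 (r : E 3) - (4:ℝ) • z0 (q : E 3)) := by
  obtain ⟨r1, r2, -⟩ := E3_DD (r : E 3)
  set R : Fin 4 → X := ((r : E 3) : Fin 4 → X) with hR
  have hz : ∀ i : Fin 4, ∀ x : ℝ, 0 ≤ x → x ≤ 1 / 4 → evX (R i) x = 0 := r.2
  have hcont : Continuous (fun x : ℝ => ∫ u in (0:ℝ)..1, u ^ 3 * evX (R 0) (x * u)) := by
    refine intervalIntegral.continuous_parametric_intervalIntegral_of_continuous' ?_ 0 1
    have h1 : Continuous (fun p : ℝ × ℝ => evX (R 0) (p.1 * p.2)) :=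
      (continuous_evX (R 0)).comp (by fun_prop)
    exact (continuous_snd.pow 3).mul h1
  set q0 : X := mkX (fun x : ℝ => ∫ u in (0:ℝ)..1, u ^ 3 * evX (R 0) (x * u)) with hq0
  have hq0ev : ∀ x : ℝ, 0 ≤ x → x ≤ 1 → evX q0 x = ∫ u in (0:ℝ)..1, u ^ 3 * evX (R 0) (x * u) :=
    fun x h0 h1 => evX_mkX hcont h0 h1
  have d0 : DD q0 (R 0 - (4:ℝ) • q0) := by
    intro x hx0 hx1
    have h1 := Bn_der (R 0) 3 x hx0
    have h2 := h1.congr_of_eventuallyEq (f₁ := evX q0) (by
      filter_upwards [Ioo_mem_nhds hx0 hx1] with y hy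
      rw [hq0ev y hy.1.le hy.2.le])
    refine h2.congr_deriv ?_
    rw [evX_sub, evX_smul, hq0ev x hx0.le hx1.le]
    norm_num
  have d1 : DD (R 0 - (4:ℝ) • q0) (R 1 - (4:ℝ) • (R 0 - (4:ℝ) • q0)) := r1.sub (d0.smul 4)
  have d2 : DD (R 1 - (4:ℝ) • (R 0 - (4:ℝ) • q0))
      (R 2 - (4:ℝ) • (R 1 - (4:ℝ) • (R 0 - (4:ℝ) • q0))) := r2.sub (d1.smul 4)
  have z0' : ∀ x : ℝ, 0 ≤ x → x ≤ 1 / 4 → evX q0 x = 0 := by
    intro x hx0 hx1
    rw [hq0ev x hx0 (by linarith)]
    have : ∀ u ∈ uIcc (0:ℝ) 1, u ^ 3 * evX (R 0) (x * u) = 0 := by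
      intro u hu
      rw [uIcc_of_le zero_le_one] at hu
      rw [hz 0 (x * u) (mul_nonneg hx0 hu.1) (by nlinarith [hu.1, hu.2]), mul_zero]
    rw [intervalIntegral.integral_congr this]
    simp
  refine ⟨⟨⟨_, mkE3 d0 d1 d2⟩, ?_⟩, d0⟩
  intro i x hx0 hx1
  have z := fun i => hz i x hx0 hx1
  have zq := z0' x hx0 hx1
  fin_cases i
  · exact zq
  · show evX (R 0 - (4:ℝ) • q0) x = 0
    simp only [evX_sub, evX_smul, z, zq, mul_zero, sub_zero]
  · show evX (R 1 - (4:ℝ) • (R 0 - (4:ℝ) • q0)) x = 0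
    simp only [evX_sub, evX_smul, z, zq, mul_zero, sub_zero]
  · show evX (R 2 - (4:ℝ) • (R 1 - (4:ℝ) • (R 0 - (4:ℝ) • q0))) x = 0
    simp only [evX_sub, evX_smul, z, zq, mul_zero, sub_zero]

theorem Ep_z0 (p : Ep) {x : ℝ} (h0 : 0 ≤ x) (h1 : x ≤ 1 / 4) : evX (z0 (p : E 3)) x = 0 :=
  p.2 0 x h0 h1

theorem main : P_lin := by
  intro O χ C b₀ f₀ hF
  have hbc : Continuous b₀ := hF.b_smooth.continuous
  have hfc : Continuous f₀ := hF.f_smooth.continuous
  have hdb : ContDiff ℝ ∞ (fun x => x * deriv b₀ x) :=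
    contDiff_id.mul (contDiff_infty_iff_deriv.1 hF.b_smooth).2
  refine ⟨?_, ?_⟩
  · refine Ob_unique O (mkX f₀) (mkX b₀) _ (mkX_DD hF.b_smooth) ?_
    intro x hx0 hx1
    rw [evX_mkX hdb.continuous hx0.le hx1.le, evX_mkX hfc hx0.le hx1.le,
      evX_mkX hbc hx0.le hx1.le, hF.f_eq x]
    ring
  · intro r
    -- the function `m`
    let ψ : ℝ → ℝ := fun x => Real.smoothTransition (8 * x - 1)
    have hψ : ContDiff ℝ ∞ ψ :=
      Real.smoothTransition.contDiff.comp (by fun_prop)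
    have hden : ∀ x : ℝ, b₀ x + (1 - ψ x) * (1 + x ^ 2) ≠ 0 := by
      intro x
      have hψ1 : ψ x ≤ 1 := Real.smoothTransition.le_one _
      rcases le_or_gt x (1 / 8) with hx | hx
      · have : ψ x = 0 := Real.smoothTransition.zero_of_nonpos (by linarith)
        rw [this, hF.b_near x (by linarith)]
        nlinarith [sq_nonneg (x + 1 / 6)]
      · have := hF.b_pos x (by linarith)
        have h2 : 0 ≤ (1 - ψ x) * (1 + x ^ 2) := mul_nonneg (by linarith) (by positivity)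
        linarith
    let m : ℝ → ℝ := fun x => (b₀ x + (1 - ψ x) * (1 + x ^ 2))⁻¹
    have hm : ContDiff ℝ ∞ m := by
      refine ContDiff.inv ?_ hden
      exact hF.b_smooth.add ((contDiff_const.sub hψ).mul (by fun_prop))
    have hmb : ∀ x : ℝ, 1 / 4 ≤ x → m x = (b₀ x)⁻¹ := by
      intro x hx
      have : ψ x = 1 := Real.smoothTransition.one_of_one_le (by linarith)
      simp only [m, this]
      simp
    have hmd : ∀ x : ℝ, 1 / 4 < x → x * deriv m x = -(x * deriv b₀ x) * (m x) ^ 2 := by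
      intro x hx
      have h1 : m =ᶠ[𝓝 x] fun y => (b₀ y)⁻¹ := by
        filter_upwards [Ioi_mem_nhds hx] with y hy
        exact hmb y (le_of_lt hy)
      rw [h1.deriv_eq, hmb x hx.le]
      have hb : b₀ x ≠ 0 := (hF.b_pos x (by linarith)).ne'
      have h2 : HasDerivAt b₀ (deriv b₀ x) x :=
        ((contDiff_infty_iff_deriv.1 hF.b_smooth).1 x).hasDerivAt
      have h3 : deriv (fun y => (b₀ y)⁻¹) x = -deriv b₀ x / b₀ x ^ 2 := (h2.inv hb).deriv
      rw [h3]
      field_simp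
    obtain ⟨a, ha⟩ := exists_E3 hm
    have hm2 : ContDiff ℝ ∞ (fun x => (x * deriv b₀ x) * (m x) ^ 2) := hdb.mul (hm.pow 2)
    obtain ⟨a2, ha2⟩ := exists_E3 hm2
    obtain ⟨q, hq⟩ := exists_q r
    obtain ⟨c1, hc1⟩ := exists_mul r a
    obtain ⟨c2, hc2⟩ := exists_mul q a
    obtain ⟨c3, hc3⟩ := exists_mul q a2
    let g : Ep := c1 - (2:ℝ) • c2 - c3
    have hg0 : z0 (g : E 3) = z0 (r : E 3) * mkX m - (2:ℝ) • (z0 (q : E 3) * mkX m)
        - z0 (q : E 3) * mkX (fun x => (x * deriv b₀ x) * (m x) ^ 2) := by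
      rw [← ha, ← ha2, ← hc1, ← hc2, ← hc3]
      rfl
    have hg : O.b (z0 (g : E 3)) = z0 (q : E 3) * mkX m := by
      refine Ob_unique O _ _ _ (hq.mul (mkX_DD hm)) ?_
      intro x hx0 hx1
      rw [hg0]
      simp only [evX_add, evX_sub, evX_mul, evX_smul]
      have hmd' : ContDiff ℝ ∞ (fun x => x * deriv m x) :=
        contDiff_id.mul (contDiff_infty_iff_deriv.1 hm).2
      rw [evX_mkX hm.continuous hx0.le hx1.le, evX_mkX hmd'.continuous hx0.le hx1.le,
        evX_mkX hm2.continuous hx0.le hx1.le]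
      rcases le_or_gt x (1 / 4) with hx | hx
      · rw [Ep_z0 q hx0.le hx, Ep_z0 r hx0.le hx]
        ring
      · rw [hmd x hx]
        ring
    have hsol : z0 (g : E 3) * mkX b₀ + mkX f₀ * O.b (z0 (g : E 3)) = z0 (r : E 3) := by
      rw [hg]
      refine X_ext_of_Ioo fun x hx0 hx1 => ?_
      rw [hg0]
      simp only [evX_add, evX_sub, evX_mul, evX_smul]
      rw [evX_mkX hm.continuous hx0.le hx1.le, evX_mkX hm2.continuous hx0.le hx1.le,
        evX_mkX hbc hx0.le hx1.le, evX_mkX hfc hx0.le hx1.le]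
      rcases le_or_gt x (1 / 4) with hx | hx
      · rw [Ep_z0 q hx0.le hx, Ep_z0 r hx0.le hx]
        ring
      · rw [hmb x hx.le, hF.f_eq x]
        have hb : b₀ x ≠ 0 := (hF.b_pos x (by linarith)).ne'
        field_simp
        ring
    refine ⟨g, hsol, ?_⟩
    -- uniqueness
    intro g' hg'
    have hlin : z0 ((g' - g : Ep) : E 3) * mkX b₀ + mkX f₀ * O.b (z0 ((g' - g : Ep) : E 3)) = 0 := by
      have e : z0 ((g' - g : Ep) : E 3) = z0 (g' : E 3) - z0 (g : E 3) := rfl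
      rw [e, map_sub]
      have h1 : z0 (g' : E 3) * mkX b₀ + mkX f₀ * O.b (z0 (g' : E 3)) = z0 (r : E 3) := hg'
      have h2 := hsol
      calc (z0 (g' : E 3) - z0 (g : E 3)) * mkX b₀
            + mkX f₀ * (O.b (z0 (g' : E 3)) - O.b (z0 (g : E 3)))
          = (z0 (g' : E 3) * mkX b₀ + mkX f₀ * O.b (z0 (g' : E 3)))
            - (z0 (g : E 3) * mkX b₀ + mkX f₀ * O.b (z0 (g : E 3))) := by ring
        _ = 0 := by rw [h1, h2, sub_self]
    set γ : X := z0 ((g' - g : Ep) : E 3) with hγ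
    have hβ := Ob_DD O γ
    have h1 := (mkX_DD hF.b_smooth).mul hβ
    have h2 : mkX b₀ * O.b γ = 0 := by
      refine DD_unique (n := 4) (by norm_num) h1 ?_
      intro x hx0 hx1
      have h3 := congrArg (fun u => evX u x) hlin
      simp only [evX_add, evX_mul, evX_zero] at h3
      simp only [evX_add, evX_sub, evX_mul, evX_smul]
      rw [evX_mkX hbc hx0.le hx1.le, evX_mkX hfc hx0.le hx1.le, hF.f_eq x] at h3
      rw [evX_mkX hbc hx0.le hx1.le, evX_mkX hdb.continuous hx0.le hx1.le]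
      push_cast
      linarith
    have h3 : O.b γ = 0 := by
      refine X_ext_of_Ioo fun x hx0 hx1 => ?_
      have h4 := congrArg (fun u => evX u x) h2
      simp only [evX_mul, evX_zero] at h4
      rw [evX_mkX hbc hx0.le hx1.le] at h4
      have hb : b₀ x ≠ 0 := (hF.b_pos x hx0).ne'
      rw [evX_zero]
      rcases mul_eq_zero.1 h4 with h5 | h5
      · exact absurd h5 hb
      · exact h5
    have h4 : γ = 0 := by
      have h5 : DD (0 : X) (0 : X) := by
        intro x _ _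
        have : evX (0 : X) = fun _ => (0:ℝ) := rfl
        rw [this]
        simpa using hasDerivAt_const x (0:ℝ)
      rw [h3] at hβ
      have h6 := DD_right_unique hβ h5
      simpa using h6
    have h5 : g' - g = 0 := by
      apply Subtype.ext
      apply E3_ext
      rw [← hγ, h4]
      rfl
    exact sub_eq_zero.1 h5

end

end Pool.Agent.W131.Uni
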